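import Pool.Agent.H.MP_a2f83a_an.C

set_option autoImplicit false

namespace Pool.Agent.Results.MP_a2f83a_an.No
open MeasureTheory

/-- In every dimension `n ≥ 3` there are nonzero harmonic functions on the unit ball vanishing to
arbitrarily high order at the origin whose nodal set on the sphere of radius `1/2` has arbitrarily
small `(n-2)`-dimensional Hausdorff measure. -/
theorem result (n : ℕ) (hn : 3 ≤ n) (k : ℕ) (ε : ℝ) (hε : 0 < ε) :
    ∃ u : EuclideanSpace ℝ (Fin n) → ℝ,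
      InnerProductSpace.HarmonicOnNhd u (Metric.ball 0 1) ∧
      (∃ x ∈ Metric.ball (0 : EuclideanSpace ℝ (Fin n)) 1, u x ≠ 0) ∧
      (∀ i < k, iteratedFDeriv ℝ i u 0 = 0) ∧
      Measure.hausdorffMeasure ((n : ℝ) - 2) {x | ‖x‖ = 1 / 2 ∧ u x = 0} ≤ ENNReal.ofReal ε := by
  obtain ⟨d, rfl⟩ : ∃ d, n = d + 2 := ⟨n - 2, by omega⟩
  obtain ⟨u, a, b, c, e⟩ := Pool.Agent.H.Zon.main d (by omega) k ε hε
  refine ⟨u, fun x _ => a x, b, c, ?_⟩
  have : ((d + 2 : ℕ) : ℝ) - 2 = d := by push_cast; ring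
  rw [this]
  exact e

end Pool.Agent.Results.MP_a2f83a_an.No
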